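import Pool.Agent.V5helper75.BB.Stm
import Pool.Agent.V5helper75.BR.Dj

/-!
# Project BB, job DJ: the theorem of Davis and Januszkiewicz with the conjugates of the flats

The proof is that of `Pool.Agent.V5helper75.BR.dj` (V5helper75/BR/Dj.lean), with one more conclusion.
-/

set_option autoImplicit false
set_option linter.unusedSectionVars false

noncomputable section

namespace Pool.Agent.V5helper16.BB

open Pool.Agent.W907.SG Pool.Agent.W907.SM Pool.Agent.W461.SGN Pool.Agent.N496.CV Pool.Agent.V5helper75.BK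
open Pool.Agent.V5helper75.VO Pool.Agent.V5helper75.BR

theorem t_DJ : Pool.Agent.V5helper75.BB.S_DJ := by
  intro V _ _ G
  classical
  obtain ⟨φ, hφ⟩ := aut_raag G
  obtain ⟨χ, hχ⟩ := aut_oct G
  -- the homomorphism from the Coxeter group
  obtain ⟨ψ, hψ⟩ : ∃ ψ : W (oct G) →* Raag G ⋊[φ] (V → ℤˣ), ∀ q : V ×ₗ Bool,
      ψ (gen (oct G) q) = ⟨art G (ofLex q).1 ^ eb (ofLex q).2, rf (ofLex q).1⟩ := by
    refine exists_hom (K := oct G) (fun q : V ×ₗ Bool =>
      (⟨art G (ofLex q).1 ^ eb (ofLex q).2, rf (ofLex q).1⟩ : Raag G ⋊[φ] (V → ℤˣ))) (fun q => ?_) fun q q' hq => ?_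
    · ext1
      · show art G (ofLex q).1 ^ eb (ofLex q).2 * φ (rf (ofLex q).1) (art G (ofLex q).1 ^ eb (ofLex q).2) = 1
        rw [map_zpow, hφ, rf_self]
        simp
      · exact rf_sq _
    · have hne : (ofLex q).1 ≠ (ofLex q').1 := G.ne_of_adj hq
      have hc : Commute (art G (ofLex q).1 ^ eb (ofLex q).2) (art G (ofLex q').1 ^ eb (ofLex q').2) :=
        (show Commute (art G (ofLex q).1) (art G (ofLex q').1) from art_comm hq).zpow_zpow _ _
      ext1
      · show art G (ofLex q).1 ^ eb (ofLex q).2 * φ (rf (ofLex q).1) (art G (ofLex q').1 ^ eb (ofLex q').2) =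
          art G (ofLex q').1 ^ eb (ofLex q').2 * φ (rf (ofLex q').1) (art G (ofLex q).1 ^ eb (ofLex q).2)
        rw [map_zpow, map_zpow, hφ, hφ, rf_ne hne, rf_ne hne.symm]
        simp only [Units.val_one, zpow_one]
        exact hc
      · exact mul_comm _ _
  -- the homomorphism from the Artin group
  obtain ⟨f1, hf1⟩ : ∃ f1 : Raag G →* W (oct G) ⋊[χ] (V → ℤˣ), ∀ v,
      f1 (art G v) = ⟨gen (oct G) (toLex (v, true)), rf v⟩ := by
    refine raag_hom (fun v => (⟨gen (oct G) (toLex (v, true)), rf v⟩ : W (oct G) ⋊[χ] (V → ℤˣ))) fun u v huv => ?_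
    have hne : u ≠ v := G.ne_of_adj huv
    ext1
    · rw [SemidirectProduct.mul_left, SemidirectProduct.mul_left]
      show _ * χ (rf u) _ = _ * χ (rf v) _
      rw [hχ, hχ, rf_ne hne, rf_ne hne.symm]
      exact gen_comm (K := oct G) huv
    · exact mul_comm _ _
  have hf1' : ∀ v (s : ℤˣ), f1 (art G v) ^ ((s : ℤˣ) : ℤ) = ⟨gen (oct G) (toLex (v, fb s true)), rf v⟩ := by
    intro v s
    rcases Int.units_eq_one_or s with rfl | rfl
    · rw [Units.val_one, zpow_one, hf1]
      rfl
    · rw [Units.val_neg, Units.val_one, zpow_neg_one, hf1]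
      refine inv_eq_of_mul_eq_one_right ?_
      ext1
      · rw [SemidirectProduct.mul_left, SemidirectProduct.one_left]
        show _ * χ (rf v) _ = 1
        rw [hχ, rf_self]
        exact gen_sq _ _
      · exact rf_sq _
  let θ1 : Raag G ⋊[φ] (V → ℤˣ) →* W (oct G) ⋊[χ] (V → ℤˣ) := SemidirectProduct.lift f1 SemidirectProduct.inr (by
    intro σ
    refine PresentedGroup.ext fun v => ?_
    show f1 (φ σ (art G v)) = SemidirectProduct.inr σ * f1 (art G v) * (SemidirectProduct.inr σ)⁻¹
    rw [hφ, map_zpow, hf1', hf1]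
    ext1
    · simp [hχ]
    · simp)
  let θ2 : W (oct G) ⋊[χ] (V → ℤˣ) →* Raag G ⋊[φ] (V → ℤˣ) := SemidirectProduct.lift ψ SemidirectProduct.inr (by
    intro σ
    ext1 x
    refine hom_ext (ρ := ψ.comp (χ σ).toMonoidHom)
      (τ := (MulAut.conj (SemidirectProduct.inr σ)).toMonoidHom.comp ψ) (fun q => ?_) x
    obtain ⟨⟨v, ε⟩, rfl⟩ := toLex.surjective q
    show ψ (χ σ (gen (oct G) (toLex (v, ε)))) = SemidirectProduct.inr σ * ψ (gen (oct G) (toLex (v, ε))) *
      (SemidirectProduct.inr σ)⁻¹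
    rw [hχ, hψ, hψ]
    ext1
    · rw [SemidirectProduct.mul_left, SemidirectProduct.mul_left, ← map_inv, SemidirectProduct.left_inr,
        SemidirectProduct.left_inr, SemidirectProduct.right_inr, map_one, mul_one, one_mul]
      show art G v ^ eb (fb (σ v) ε) = φ σ (art G v ^ eb ε)
      rw [map_zpow, hφ, eb_fb, zpow_mul]
    · rw [SemidirectProduct.mul_right, SemidirectProduct.mul_right, ← map_inv, SemidirectProduct.right_inr,
        SemidirectProduct.right_inr]
      show rf v = σ * rf v * σ⁻¹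
      rw [mul_inv_cancel_comm])
  have h21 : ∀ x, θ2 (θ1 x) = x := by
    have h : θ2.comp θ1 = MonoidHom.id _ := by
      refine SemidirectProduct.hom_ext ?_ ?_
      · refine PresentedGroup.ext fun v => ?_
        show θ2 (θ1 (SemidirectProduct.inl (art G v))) = SemidirectProduct.inl (art G v)
        rw [SemidirectProduct.lift_inl, hf1, SemidirectProduct.mk_eq_inl_mul_inr, map_mul,
          SemidirectProduct.lift_inl, SemidirectProduct.lift_inr, hψ]
        have h3 : art G v ^ eb true = art G v := zpow_one _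
        ext1
        · rw [SemidirectProduct.mul_left, SemidirectProduct.left_inr, map_one, mul_one, SemidirectProduct.left_inl]
          exact h3
        · exact rf_sq _
      · refine MonoidHom.ext fun σ => ?_
        show θ2 (θ1 (SemidirectProduct.inr σ)) = SemidirectProduct.inr σ
        rw [SemidirectProduct.lift_inr, SemidirectProduct.lift_inr]
    intro x
    exact DFunLike.congr_fun h x
  have h12 : ∀ w, θ1 (ψ w) = SemidirectProduct.inl w := by
    intro w
    refine hom_ext (ρ := θ1.comp ψ) (τ := SemidirectProduct.inl) (fun q => ?_) w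
    obtain ⟨⟨v, ε⟩, rfl⟩ := toLex.surjective q
    rw [MonoidHom.comp_apply, hψ, SemidirectProduct.mk_eq_inl_mul_inr, map_mul, SemidirectProduct.lift_inl,
      SemidirectProduct.lift_inr, map_zpow]
    have h3 : eb (ofLex (toLex (v, ε))).2 = (((if ε = true then 1 else -1 : ℤˣ)) : ℤ) := by
      cases ε <;> rfl
    rw [h3]
    show f1 (art G v) ^ _ * _ = _
    rw [hf1']
    ext1
    · cases ε <;> simp [fb]
    · simp [rf_sq]
  refine ⟨Raag G ⋊[φ] (V → ℤˣ), inferInstance, SemidirectProduct.inl, ψ, SemidirectProduct.inl_injective, ?_, ?_, ?_, ?_⟩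
  · intro a b hab
    have h3 := congrArg θ1 hab
    rw [h12, h12] at h3
    exact SemidirectProduct.inl_injective h3
  · rw [SemidirectProduct.range_inl_eq_ker_rightHom]
    infer_instance
  · have h3 : ((SemidirectProduct.inl : W (oct G) →* W (oct G) ⋊[χ] (V → ℤˣ)).range.comap θ1).FiniteIndex := by
      rw [SemidirectProduct.range_inl_eq_ker_rightHom, MonoidHom.comap_ker]
      infer_instance
    refine Subgroup.finiteIndex_of_le (H := (SemidirectProduct.inl : W (oct G) →*
      W (oct G) ⋊[χ] (V → ℤˣ)).range.comap θ1) ?_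
    rintro x ⟨w, hw⟩
    refine ⟨w, ?_⟩
    rw [← h21 x, ← hw, ← h12, h21]

  · intro x
    obtain ⟨y, σ, hx⟩ : ∃ (y : Raag G) (σ : V → ℤˣ), ψ x = SemidirectProduct.inl y * SemidirectProduct.inr σ :=
      ⟨(ψ x).left, (ψ x).right, (SemidirectProduct.inl_left_mul_inr_right _).symm⟩
    refine ⟨y, σ, fun v => ?_⟩
    have h3 : ψ (gen (oct G) (toLex (v, true)) * gen (oct G) (toLex (v, false))) =
        SemidirectProduct.inl (art G v ^ (2 : ℤ)) := by
      rw [map_mul, hψ, hψ]
      ext1
      · rw [SemidirectProduct.mul_left, SemidirectProduct.left_inl]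
        show art G v ^ (1 : ℤ) * φ (rf v) (art G v ^ (-1 : ℤ)) = art G v ^ (2 : ℤ)
        rw [map_zpow, hφ, rf_self, ← zpow_mul, ← zpow_add]
        norm_num
      · rw [SemidirectProduct.right_inl]
        exact rf_sq v
    rw [map_mul, map_mul, h3, map_inv, hx, mul_inv_rev]
    have h4 : SemidirectProduct.inl (φ σ (art G v ^ (2 : ℤ))) = SemidirectProduct.inr σ *
        SemidirectProduct.inl (art G v ^ (2 : ℤ)) * SemidirectProduct.inr σ⁻¹ := SemidirectProduct.inl_aut σ _
    have h5 : φ σ (art G v ^ (2 : ℤ)) = art G v ^ (2 * ((σ v : ℤˣ) : ℤ)) := by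
      rw [map_zpow, hφ, ← zpow_mul, mul_comm]
    rw [h5, map_inv] at h4
    rw [map_mul, map_mul, h4, map_inv]
    simp only [mul_assoc]

end Pool.Agent.V5helper16.BB
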