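import Pool.Agent.V5helper75.BB.Stm3

/-!
# Project BB, job OBS3: flats in a subgroup of a right-angled Artin group
-/

set_option autoImplicit false
set_option linter.unusedSectionVars false

noncomputable section

namespace Pool.Agent.V5helper16.BB

open Finset Pool.Agent.W907.SG Pool.Agent.W461.SGN Pool.Agent.V5helper75.VO Pool.Agent.N496.CV Pool.Agent.V5helper74.LR
open Pool.Agent.V5helper75.BK Pool.Agent.R782.Bal
open Pool.Agent.V5helper75.BB (Flat)
open Pool.Agent.R703.MO (HomZero)

/-- the translations as a homomorphism -/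
def trHom : Multiplicative ℤ →* Equiv.Perm ℤ where
  toFun x := tr (Multiplicative.toAdd x)
  map_one' := tr_zero
  map_mul' _ _ := (tr_mul _ _).symm

/-- an element commuting with the generators over `S` commutes with `A_S` -/
theorem flat_comm {V : Type} {G : SimpleGraph V} {S : Finset V} {x : Raag G} (h : ∀ v ∈ S, Commute x (art G v))
    {s : Raag G} (hs : s ∈ Flat G S) : Commute x s := by
  have h1 : Flat G S ≤ Subgroup.centralizer {x} := by
    unfold Flat
    rw [Subgroup.closure_le]
    rintro _ ⟨v, hv, rfl⟩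
    show art G v ∈ Subgroup.centralizer {x}
    rw [Subgroup.mem_centralizer_singleton_iff]
    exact (h v (mem_coe.1 hv)).symm.eq
  exact (Subgroup.mem_centralizer_singleton_iff.1 (h1 hs)).symm

theorem t_OBS3 : Pool.Agent.V5helper75.BB.S_OBS3 := by
  intro V _ _ G F _ μ S A g i hμ hS hA hk h
  classical
  have h1 : ¬ Ex2 (G.induce A) Set.univ i := fun h2 => h (homZero_of_ex2 (ex2_sub h2))
  have h2 : ¬ Obs (oct (G.induce A)) (2 * i) := fun h3 => h1 (ex2_of_obs h3)
  have hAv : ∀ a : A, ∀ v ∈ S, G.Adj v a.1 := fun a => hA a.1 a.2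
  have hk' : ∀ w : A, ∃ (a : ℤ) (f : Raag G) (k : F), f ∈ Flat G S ∧ a ≠ 0 ∧
      μ k = g * (art G w.1 ^ a * f) * g⁻¹ := by
    intro w
    obtain ⟨a, f, hf, ha, k, hk1⟩ := hk w.1 w.2
    exact ⟨a, f, k, hf, ha, hk1⟩
  choose a f k hf ha hk2 using hk'
  have hff : ∀ x y : Raag G, x ∈ Flat G S → y ∈ Flat G S → Commute x y := by
    intro x y hx hy
    refine flat_comm (fun v hv => (flat_comm (fun u hu => ?_) hx).symm) hy
    by_cases huv : v = u
    · rw [huv]
    · exact art_comm (hS (mem_coe.2 hv) (mem_coe.2 hu) huv)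
  have hkc : ∀ w w' : A, G.Adj w.1 w'.1 → Commute (k w) (k w') := by
    intro w w' hw
    have c1 : Commute (art G w.1) (art G w'.1) := art_comm hw
    have c2 : Commute (f w) (art G w'.1) := (flat_comm (fun v hv => art_comm (hAv w' v hv).symm) (hf w)).symm
    have c3 : Commute (art G w.1) (f w') := flat_comm (fun v hv => art_comm (hAv w v hv).symm) (hf w')
    have c4 : Commute (art G w.1 ^ a w * f w) (art G w'.1 ^ a w' * f w') :=
      ((c1.zpow_zpow _ _).mul_right (c3.zpow_left _)).mul_left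
        ((c2.zpow_right _).mul_right (hff _ _ (hf w) (hf w')))
    have c5 := c4.map (MulAut.conj g)
    apply hμ
    rw [map_mul, map_mul, hk2, hk2]
    exact c5
  obtain ⟨t, t1, t2⟩ : ∃ t : A ×ₗ Bool → F, (∀ w, t (toLex (w, true)) = k w) ∧
      ∀ w, t (toLex (w, false)) = (k w)⁻¹ := by
    refine ⟨fun q => if (ofLex q).2 = true then k (ofLex q).1 else (k (ofLex q).1)⁻¹, ?_, ?_⟩
    · intro w; simp
    · intro w; simp
  have hcomm : ∀ u w, (oct (G.induce A)).Adj u w → Commute (t u) (t w) := by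
    intro p q hpq
    obtain ⟨⟨x, ε⟩, rfl⟩ := toLex.surjective p
    obtain ⟨⟨y, δ⟩, rfl⟩ := toLex.surjective q
    have h3 : Commute (k x) (k y) := hkc x y hpq
    cases ε <;> cases δ
    · rw [t2, t2]; exact h3.inv_inv
    · rw [t2, t1]; exact h3.inv_left
    · rw [t1, t2]; exact h3.inv_right
    · rw [t1, t1]; exact h3
  refine ⟨A ×ₗ Bool, inferInstance, oct (G.induce A), t, h2, hcomm, ?_⟩
  intro U U' hU hU' hd p hp
  obtain ⟨⟨v0, δ⟩, rfl⟩ := toLex.surjective p
  obtain ⟨s, hs⟩ : ∃ s : ℤ, 1 ≤ (if δ = true then a v0 * s else -(a v0 * s)) := by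
    have h3 : 1 ≤ a v0 * a v0 := by
      have h4 : 0 < a v0 * a v0 := mul_self_pos.2 (ha v0)
      omega
    cases δ
    · exact ⟨-a v0, by rw [if_neg (by simp)]; linarith⟩
    · exact ⟨a v0, by rw [if_pos rfl]; exact h3⟩
  obtain ⟨ρ1, hρ1⟩ := raag_hom (G := G) (Γ := Multiplicative ℤ)
    (fun w => if w = v0.1 then Multiplicative.ofAdd s else 1) (fun _ _ _ => mul_comm _ _)
  have hfl : ∀ x ∈ Flat G S, ρ1 x = 1 := by
    have h3 : Flat G S ≤ ρ1.ker := by
      unfold Flat
      rw [Subgroup.closure_le]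
      rintro _ ⟨v, hv, rfl⟩
      show ρ1 (art G v) = 1
      rw [hρ1, if_neg (G.ne_of_adj (hAv v0 v (mem_coe.1 hv)))]
    exact fun x hx => h3 hx
  have hρk : ∀ w : A, trHom (ρ1 (μ (k w))) = if w = v0 then tr (a v0 * s) else 1 := by
    intro w
    have h5 : ρ1 (μ (k w)) = ρ1 (art G w.1) ^ a w := by
      rw [hk2, map_mul, map_mul, map_mul, map_zpow, hfl _ (hf w), mul_one, map_inv, mul_comm (ρ1 g),
        mul_inv_cancel_right]
    rw [h5, hρ1]
    by_cases hw : w = v0
    · subst hw
      rw [if_pos rfl, if_pos rfl]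
      show tr (Multiplicative.toAdd (Multiplicative.ofAdd s ^ a w)) = _
      rw [← ofAdd_zsmul, toAdd_ofAdd, smul_eq_mul]
    · rw [if_neg hw, if_neg (fun h3 => hw (Subtype.ext h3)), one_zpow, map_one]
  obtain ⟨E, E1, E2, E3⟩ : ∃ E : A ×ₗ Bool → ℤ, E (toLex (v0, true)) = a v0 * s ∧
      E (toLex (v0, false)) = -(a v0 * s) ∧ ∀ w γ, w ≠ v0 → E (toLex (w, γ)) = 0 := by
    refine ⟨fun q => if (ofLex q).1 = v0 then (if (ofLex q).2 = true then a v0 * s else -(a v0 * s)) else 0, ?_, ?_, ?_⟩
    · simp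
    · simp
    · intro w γ h1
      simp [h1]
  refine ⟨(trHom.comp ρ1).comp μ, E, ?_, ?_, ?_, ?_⟩
  · intro q _
    obtain ⟨⟨w, γ⟩, rfl⟩ := toLex.surjective q
    have h3 := hρk w
    by_cases hw : w = v0
    · subst hw
      rw [if_pos rfl] at h3
      cases γ
      · rw [t2, map_inv, E2, ← tr_inv]
        exact congrArg (fun z => z⁻¹) h3
      · rw [t1, E1]
        exact h3
    · rw [if_neg hw] at h3
      rw [E3 w γ hw, tr_zero]
      cases γ
      · rw [t2, map_inv, inv_eq_one]
        exact h3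
      · rw [t1]
        exact h3
  · cases δ
    · rw [if_neg (by simp)] at hs
      rw [E2]
      exact hs
    · rw [if_pos rfl] at hs
      rw [E1]
      exact hs
  · intro q hq
    obtain ⟨⟨w, γ⟩, rfl⟩ := toLex.surjective q
    by_cases hw : w = v0
    · subst hw
      have h3 : γ = δ := by
        by_contra h3
        have h4 := hU (mem_coe.2 hq) (mem_coe.2 hp) (fun h5 => h3 (congrArg (fun p => (ofLex p).2) h5))
        exact G.loopless.irrefl _ h4
      subst h3
      cases γ
      · rw [if_neg (by simp)] at hs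
        rw [E2]
        linarith
      · rw [if_pos rfl] at hs
        rw [E1]
        linarith
    · rw [E3 w γ hw]
  · intro q hq
    obtain ⟨⟨w, γ⟩, rfl⟩ := toLex.surjective q
    by_cases hw : w = v0
    · subst hw
      have h3 : γ ≠ δ := by
        rintro rfl
        exact disjoint_left.1 hd hp hq
      cases γ <;> cases δ
      · exact absurd rfl h3
      · rw [if_pos rfl] at hs
        rw [E2]
        linarith
      · rw [if_neg (by simp)] at hs
        rw [E1]
        linarith
      · exact absurd rfl h3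
    · rw [E3 w γ hw]

end Pool.Agent.V5helper16.BB
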